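import Pool.Agent.H98.Elss1

namespace Pool.Agent.Results.MP_3c7b76_co.Factor

theorem result (n : ℕ) (p : Fin n → ℝ × ℝ) (hinj : Function.Injective p)
    (hgp : ∀ a b c, a ≠ b → a ≠ c → b ≠ c → ¬ Collinear ℝ ({p a, p b, p c} : Set (ℝ × ℝ)))
    (G : SimpleGraph (Fin n)) :
    ∃ α β γ : ℝ, (α ≠ 0 ∨ β ≠ 0) ∧ (∀ v, α * (p v).1 + β * (p v).2 ≠ γ) ∧
      8 / 9 * ((G.edgeSet.ncard : ℝ) ^ 2 / (n : ℝ) ^ 2) ≤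
        (Set.ncard {e ∈ G.edgeSet | ∃ u v, e = s(u, v) ∧
          ∃ x ∈ segment ℝ (p u) (p v), α * x.1 + β * x.2 = γ} : ℝ) := by
  obtain ⟨α, β, γ, g1, g2, m, t, rfl, rfl, h1, h2, _⟩ :=
    Pool.Agent.H98.Elss.all_parts n p hinj hgp G
  exact ⟨α, β, γ, g1, g2, h1⟩

end Pool.Agent.Results.MP_3c7b76_co.Factor
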